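import Pool.Agent.U722.FF.Stm4

/-!
Project LB (helper722), package MCONE: cokernels, the mapping cone of a map of matrix resolutions.
-/

set_option autoImplicit false
set_option linter.unusedSectionVars false

namespace Pool.Agent.U851.LBP

open Matrix U722.FF

/-- the index types of the cone -/
def ci (iA iB : ℕ → Type) : ℕ → Type
  | 0 => iB 0
  | n + 1 => iB (n + 1) ⊕ iA n

instance ciF (iA iB : ℕ → Type) [∀ n, Fintype (iA n)] [∀ n, Fintype (iB n)] :
    ∀ n, Fintype (ci iA iB n)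
  | 0 => inferInstanceAs (Fintype (iB 0))
  | n + 1 => inferInstanceAs (Fintype (iB (n + 1) ⊕ iA n))

/-- the matrices of the cone -/
def cd {S : Type} [Ring S] {iA iB : ℕ → Type} (dA : ∀ n, Matrix (iA (n + 1)) (iA n) S)
    (dB : ∀ n, Matrix (iB (n + 1)) (iB n) S) (φ : ∀ n, Matrix (iA n) (iB n) S) :
    ∀ n, Matrix (ci iA iB (n + 1)) (ci iA iB n) S
  | 0 => fun i j => Sum.elim (fun b => dB 0 b j) (fun a => φ 0 a j) i
  | n + 1 => fun i j => Sum.elim
      (fun b => Sum.elim (fun b' => dB (n + 1) b b') (fun _ => 0) j)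
      (fun a => Sum.elim (fun b' => φ (n + 1) a b') (fun a' => -dA n a a') j) i

theorem cd_map {S S' : Type} [Ring S] [Ring S'] (ψ : S →+* S') {iA iB : ℕ → Type}
    (dA : ∀ n, Matrix (iA (n + 1)) (iA n) S)
    (dB : ∀ n, Matrix (iB (n + 1)) (iB n) S) (φ : ∀ n, Matrix (iA n) (iB n) S) (n : ℕ) :
    (cd dA dB φ n).map ψ =
      cd (fun n => (dA n).map ψ) (fun n => (dB n).map ψ) (fun n => (φ n).map ψ) n := by
  cases n with
  | zero =>
    ext i j
    rcases i with i | i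
    · rfl
    · rfl
  | succ n =>
    ext i j
    rcases i with i | i <;> rcases j with j | j
    · rfl
    · show ψ 0 = 0
      exact map_zero ψ
    · rfl
    · show ψ (-dA n i j) = -ψ (dA n i j)
      exact map_neg ψ _

section
variable {S : Type} [Ring S] {iA iB : ℕ → Type} [∀ n, Fintype (iA n)] [∀ n, Fintype (iB n)]
  (dA : ∀ n, Matrix (iA (n + 1)) (iA n) S)
  (dB : ∀ n, Matrix (iB (n + 1)) (iB n) S) (φ : ∀ n, Matrix (iA n) (iB n) S)

theorem v0 (v : iB 1 ⊕ iA 0 → S) (j : iB 0) :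
    (@vecMul _ _ _ _ (ciF iA iB 1) v (cd dA dB φ 0)) j =
      ((fun i => v (Sum.inl i)) ᵥ* dB 0) j + ((fun i => v (Sum.inr i)) ᵥ* φ 0) j := by
  show (∑ i : iB 1 ⊕ iA 0, v i * cd dA dB φ 0 i j) = _
  rw [Fintype.sum_sum_type]
  rfl

theorem v1 (n : ℕ) (v : iB (n + 2) ⊕ iA (n + 1) → S) (j : iB (n + 1)) :
    (@vecMul _ _ _ _ (ciF iA iB (n + 2)) v (cd dA dB φ (n + 1))) (Sum.inl j) =
      ((fun i => v (Sum.inl i)) ᵥ* dB (n + 1)) j + ((fun i => v (Sum.inr i)) ᵥ* φ (n + 1)) j := by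
  show (∑ i : iB (n + 2) ⊕ iA (n + 1), v i * cd dA dB φ (n + 1) i (Sum.inl j)) = _
  rw [Fintype.sum_sum_type]
  rfl

theorem v2 (n : ℕ) (v : iB (n + 2) ⊕ iA (n + 1) → S) (j : iA n) :
    (@vecMul _ _ _ _ (ciF iA iB (n + 2)) v (cd dA dB φ (n + 1))) (Sum.inr j) =
      -((fun i => v (Sum.inr i)) ᵥ* dA n) j := by
  show (∑ i : iB (n + 2) ⊕ iA (n + 1), v i * cd dA dB φ (n + 1) i (Sum.inr j)) = _
  rw [Fintype.sum_sum_type]
  have h1 : ∀ i : iB (n + 2), v (Sum.inl i) * cd dA dB φ (n + 1) (Sum.inl i) (Sum.inr j) = 0 :=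
    fun i => mul_zero _
  have h2 : ∀ i : iA (n + 1), v (Sum.inr i) * cd dA dB φ (n + 1) (Sum.inr i) (Sum.inr j) =
      -(v (Sum.inr i) * dA n i j) := fun i => mul_neg _ _
  simp only [h1, h2]
  rw [Finset.sum_const_zero, zero_add, Finset.sum_neg_distrib]
  rfl

end

/-- the diagram chase -/
theorem chase {S : Type} [Ring S] {α1 α2 β1 β2 β3 : Type} [Fintype α1] [Fintype α2] [Fintype β1]
    [Fintype β2] [Fintype β3] (dA1 : Matrix α2 α1 S) (dB1 : Matrix β2 β1 S) (dB2 : Matrix β3 β2 S)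
    (φ1 : Matrix α1 β1 S) (φ2 : Matrix α2 β2 S) (hφ : φ2 * dB1 = dA1 * φ1) (x : β2 → S)
    (y : α1 → S) (hA : ∃ y', y' ᵥ* dA1 = y) (hB : ∀ x : β2 → S, x ᵥ* dB1 = 0 → ∃ x', x' ᵥ* dB2 = x)
    (hxy : x ᵥ* dB1 + y ᵥ* φ1 = 0) :
    ∃ (x' : β3 → S) (y' : α2 → S), x' ᵥ* dB2 + y' ᵥ* φ2 = x ∧ -(y' ᵥ* dA1) = y := by
  obtain ⟨y', hy'⟩ := hA
  obtain ⟨x', hx'⟩ := hB (x + y' ᵥ* φ2) (by
    rw [add_vecMul, vecMul_vecMul, hφ, ← vecMul_vecMul, hy', hxy])
  refine ⟨x', -y', ?_, ?_⟩
  · rw [hx', neg_vecMul, add_neg_cancel_right]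
  · rw [neg_vecMul, neg_neg, hy']

theorem exists_seq {S : ℕ → Type} (s0 : S 0) (T : ∀ n, S n → S (n + 1) → Prop)
    (h : ∀ n s, ∃ s', T n s s') : ∃ s : ∀ n, S n, s 0 = s0 ∧ ∀ n, T n (s n) (s (n + 1)) := by
  choose F hF using h
  exact ⟨fun n => Nat.rec s0 (fun n s => F n s) n, rfl, fun n => hF n _⟩

theorem t_MCONE : U722.FF.S_MCONE := by
  classical
  intro R U _ _ ψ k A B C _ _ _ _ _ _ f g hf hg hfg hA hB
  obtain ⟨NA, iA, fA, dA, εA, A0, A1, A2, A3, A4, A5⟩ := hA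
  obtain ⟨NB, iB, fB, dB, εB, B0, B1, B2, B3, -, B5⟩ := hB
  -- the composite of two matrices is zero
  have row : ∀ {m n : Type} [Fintype m] (i : m) (M : Matrix m n R),
      (Pi.single i (1 : R)) ᵥ* M = M i := by
    intro m n _ i M
    ext j
    show (∑ l, (Pi.single i (1 : R) : m → R) l * M l j) = M i j
    rw [Finset.sum_eq_single i]
    · rw [Pi.single_eq_same, one_mul]
    · intro l _ hl
      rw [Pi.single_eq_of_ne hl, zero_mul]
    · intro h; exact absurd (Finset.mem_univ i) h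
  have mulrow : ∀ {l m n : Type} [Fintype m] (P : Matrix l m R) (Q : Matrix m n R) (i : l),
      (P * Q) i = P i ᵥ* Q := fun P Q i => rfl
  have hAA : ∀ n, dA (n + 1) * dA n = 0 := by
    intro n
    ext i j
    exact congrFun ((A3 n (dA (n + 1) i)).2 ⟨Pi.single i 1, row i _⟩) j
  have hBB : ∀ n, dB (n + 1) * dB n = 0 := by
    intro n
    ext i j
    exact congrFun ((B3 n (dB (n + 1) i)).2 ⟨Pi.single i 1, row i _⟩) j
  -- the lift in degree 0
  have lin : ∀ {m : Type} [Fintype m] {M : Type} [AddCommGroup M] [Module R M]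
      (L : (m → R) →ₗ[R] M) (v : m → R), L v = ∑ i, v i • L (Pi.single i 1) := by
    intro m _ M _ _ L v
    have e : v = ∑ i, v i • (Pi.single i (1 : R) : m → R) := by
      ext j
      rw [Finset.sum_apply, Finset.sum_eq_single j]
      · simp
      · intro l _ hl
        rw [Pi.smul_apply, Pi.single_eq_of_ne hl.symm, smul_zero]
      · intro h; exact absurd (Finset.mem_univ j) h
    conv_lhs => rw [e]
    rw [map_sum]
    exact Finset.sum_congr rfl fun i _ => map_smul L _ _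
  have vsum : ∀ {m n : Type} [Fintype m] (v : m → R) (M : Matrix m n R),
      v ᵥ* M = ∑ i, v i • M i := by
    intro m n _ v M
    ext j
    rw [Finset.sum_apply]
    rfl
  obtain ⟨w0, hw0⟩ : ∃ w0 : Matrix (iA 0) (iB 0) R, ∀ i, εB (w0 i) = f (εA (Pi.single i 1)) :=
    ⟨Matrix.of fun i => (B1 (f (εA (Pi.single i 1)))).choose,
      fun i => (B1 (f (εA (Pi.single i 1)))).choose_spec⟩
  have hφ0 : ∀ v : iA 0 → R, εB (v ᵥ* w0) = f (εA v) := by
    intro v
    have e : f (εA v) = ∑ i, v i • f (εA (Pi.single i 1)) := lin (f ∘ₗ εA) v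
    rw [vsum, map_sum, e]
    refine Finset.sum_congr rfl fun i _ => ?_
    rw [map_smul, hw0]
  -- the lifts
  let St : ℕ → Type := fun n => {P : Matrix (iA n) (iB n) R //
    ∀ i, ∃ w : iB (n + 1) → R, w ᵥ* dB n = dA n i ᵥ* P}
  have hs0 : ∀ i, ∃ w : iB (0 + 1) → R, w ᵥ* dB 0 = dA 0 i ᵥ* w0 := by
    intro i
    refine (B2 _).1 ?_
    rw [hφ0]
    have : εA (dA 0 i) = 0 := (A2 _).2 ⟨Pi.single i 1, row i _⟩
    rw [this, map_zero]
  obtain ⟨s, hs, hT⟩ := exists_seq (S := St) ⟨w0, hs0⟩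
    (fun n P P' => P'.1 * dB n = dA n * P.1) (by
      intro n P
      obtain ⟨w, hw⟩ : ∃ w : Matrix (iA (n + 1)) (iB (n + 1)) R, ∀ i, w i ᵥ* dB n = dA n i ᵥ* P.1 :=
        ⟨Matrix.of fun i => (P.2 i).choose, fun i => (P.2 i).choose_spec⟩
      have hw' : w * dB n = dA n * P.1 := by
        ext i j
        exact congrFun (hw i) j
      refine ⟨⟨w, fun i => ?_⟩, hw'⟩
      refine (B3 n _).1 ?_
      rw [vecMul_vecMul, hw', ← vecMul_vecMul]
      have : dA (n + 1) i ᵥ* dA n = 0 := (A3 n _).2 ⟨Pi.single i 1, row i _⟩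
      rw [this, zero_vecMul])
  let φ : ∀ n, Matrix (iA n) (iB n) R := fun n => (s n).1
  have hφ : ∀ n, φ (n + 1) * dB n = dA n * φ n := hT
  have hφ0' : ∀ v : iA 0 → R, εB (v ᵥ* φ 0) = f (εA v) := by
    intro v
    have : φ 0 = w0 := congrArg Subtype.val hs
    rw [this]
    exact hφ0 v
  have hgf : ∀ a, g (f a) = 0 := fun a => (hfg _).2 ⟨a, rfl⟩
  -- the cone
  refine ⟨max NA NB + 1, ci iA iB, fun n => ciF iA iB n, cd dA dB φ, (g ∘ₗ εB : (iB 0 → R) →ₗ[R] C),
    ?_, ?_, ?_, ?_, ?_, ?_⟩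
  · intro n hn
    obtain ⟨m, rfl⟩ : ∃ m, n = m + 1 := ⟨n - 1, by omega⟩
    have h1 : IsEmpty (iB (m + 1)) := B0 _ (by omega)
    have h2 : IsEmpty (iA m) := A0 _ (by omega)
    exact inferInstanceAs (IsEmpty (iB (m + 1) ⊕ iA m))
  · exact hg.comp B1
  · intro (v : iB 0 → R)
    constructor
    · intro hv
      obtain ⟨a, ha⟩ := (hfg (εB v)).1 hv
      obtain ⟨u, rfl⟩ := A1 a
      have h1 : εB (v - u ᵥ* φ 0) = 0 := by
        rw [map_sub, hφ0', ha, sub_self]
      obtain ⟨x, hx⟩ := (B2 _).1 h1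
      refine ⟨(Sum.elim x u : iB 1 ⊕ iA 0 → R), ?_⟩
      funext j
      refine (v0 dA dB φ _ j).trans ?_
      have h2 := congrFun hx j
      show (x ᵥ* dB 0) j + (u ᵥ* φ 0) j = v j
      rw [h2]
      show v j - (u ᵥ* φ 0) j + (u ᵥ* φ 0) j = v j
      rw [sub_add_cancel]
    · rintro ⟨w, hw⟩
      have h1 : v = (fun i => w (Sum.inl i)) ᵥ* dB 0 + (fun i => w (Sum.inr i)) ᵥ* φ 0 := by
        rw [← hw]
        funext j
        exact v0 dA dB φ w j
      show g (εB v) = 0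
      rw [h1, map_add, map_add, hφ0', hgf, add_zero]
      have h2 : εB ((fun i => w (Sum.inl i)) ᵥ* dB 0) = 0 := (B2 _).2 ⟨_, rfl⟩
      rw [h2, map_zero]
  · intro n v
    constructor
    · intro hv
      cases n with
      | zero =>
        have h1 : (fun i => v (Sum.inl i)) ᵥ* dB 0 + (fun i => v (Sum.inr i)) ᵥ* φ 0 = 0 := by
          funext j
          exact (v0 dA dB φ v j).symm.trans (congrFun hv j)
        have hy : ∃ y', y' ᵥ* dA 0 = fun i => v (Sum.inr i) := by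
          refine (A2 _).1 ?_
          apply hf
          rw [map_zero, ← hφ0', eq_neg_of_add_eq_zero_right h1, map_neg]
          have h2 : εB ((fun i => v (Sum.inl i)) ᵥ* dB 0) = 0 := (B2 _).2 ⟨_, rfl⟩
          rw [h2, neg_zero]
        obtain ⟨x', y', e1, e2⟩ := chase (dA 0) (dB 0) (dB 1) (φ 0) (φ 1) (hφ 0) _ _ hy
          (fun x hx => (B3 0 x).1 hx) h1
        refine ⟨(Sum.elim x' y' : iB 2 ⊕ iA 1 → R), ?_⟩
        funext j
        rcases j with j | j
        · exact (v1 dA dB φ _ _ j).trans (congrFun e1 j)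
        · exact (v2 dA dB φ _ _ j).trans (congrFun e2 j)
      | succ m =>
        have h1 : (fun i => v (Sum.inl i)) ᵥ* dB (m + 1) +
            (fun i => v (Sum.inr i)) ᵥ* φ (m + 1) = 0 := by
          funext j
          exact (v1 dA dB φ m v j).symm.trans (congrFun hv (Sum.inl j))
        have h2 : (fun i => v (Sum.inr i)) ᵥ* dA m = 0 := by
          funext j
          exact neg_eq_zero.1 ((v2 dA dB φ m v j).symm.trans (congrFun hv (Sum.inr j)))
        obtain ⟨x', y', e1, e2⟩ := chase (dA (m + 1)) (dB (m + 1)) (dB (m + 2)) (φ (m + 1))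
          (φ (m + 2)) (hφ (m + 1)) _ _ ((A3 m _).1 h2) (fun x hx => (B3 (m + 1) x).1 hx) h1
        refine ⟨(Sum.elim x' y' : iB (m + 3) ⊕ iA (m + 2) → R), ?_⟩
        funext j
        rcases j with j | j
        · exact (v1 dA dB φ _ _ j).trans (congrFun e1 j)
        · exact (v2 dA dB φ _ _ j).trans (congrFun e2 j)
    · rintro ⟨w, hw⟩
      have a1 : ∀ j, v (Sum.inl j) = ((fun i => w (Sum.inl i)) ᵥ* dB (n + 1)) j +
          ((fun i => w (Sum.inr i)) ᵥ* φ (n + 1)) j := by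
        intro j
        rw [← hw]
        exact v1 dA dB φ n w j
      have a2 : ∀ j, v (Sum.inr j) = -((fun i => w (Sum.inr i)) ᵥ* dA n) j := by
        intro j
        rw [← hw]
        exact v2 dA dB φ n w j
      have a1' : (fun j => v (Sum.inl j)) = (fun i => w (Sum.inl i)) ᵥ* dB (n + 1) +
          (fun i => w (Sum.inr i)) ᵥ* φ (n + 1) := funext a1
      have a2' : (fun j => v (Sum.inr j)) = -((fun i => w (Sum.inr i)) ᵥ* dA n) := funext a2
      have key : (fun j => v (Sum.inl j)) ᵥ* dB n + (fun j => v (Sum.inr j)) ᵥ* φ n = 0 := by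
        rw [a1', a2', add_vecMul, neg_vecMul, vecMul_vecMul, vecMul_vecMul, vecMul_vecMul, hBB,
          hφ, vecMul_zero, zero_add, add_neg_cancel]
      cases n with
      | zero =>
        funext j
        exact (v0 dA dB φ v j).trans (congrFun key j)
      | succ m =>
        funext j
        rcases j with j | j
        · exact (v1 dA dB φ m v j).trans (congrFun key j)
        · refine (v2 dA dB φ m v j).trans ?_
          have e : (fun i => v (Sum.inr i)) ᵥ* dA m = 0 := by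
            rw [a2', neg_vecMul, vecMul_vecMul, hAA, vecMul_zero, neg_zero]
          rw [e]
          exact neg_zero
  · intro h
    exact absurd h (Nat.succ_ne_zero k)
  · intro n hn v hv
    have hφU : ∀ n, (φ (n + 1)).map ψ * (dB n).map ψ = (dA n).map ψ * (φ n).map ψ := by
      intro n
      rw [← Matrix.map_mul, ← Matrix.map_mul, hφ]
    rw [cd_map] at hv
    rw [cd_map]
    cases n with
    | zero =>
      have hk : k = 0 := by omega
      have h1 : (fun i => v (Sum.inl i)) ᵥ* (dB 0).map ψ +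
          (fun i => v (Sum.inr i)) ᵥ* (φ 0).map ψ = 0 := by
        funext j
        exact (v0 (fun n => (dA n).map ψ) (fun n => (dB n).map ψ) (fun n => (φ n).map ψ) v j).symm.trans
          (congrFun hv j)
      obtain ⟨x', y', e1, e2⟩ := chase ((dA 0).map ψ) ((dB 0).map ψ) ((dB 1).map ψ)
        ((φ 0).map ψ) ((φ 1).map ψ) (hφU 0) _ _ (A4 hk _)
        (fun x hx => B5 0 (by omega) x hx) h1
      refine ⟨(Sum.elim x' y' : iB 2 ⊕ iA 1 → U), ?_⟩
      funext j
      rcases j with j | j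
      · exact (v1 (fun n => (dA n).map ψ) (fun n => (dB n).map ψ) (fun n => (φ n).map ψ)
          _ _ j).trans (congrFun e1 j)
      · exact (v2 (fun n => (dA n).map ψ) (fun n => (dB n).map ψ) (fun n => (φ n).map ψ)
          _ _ j).trans (congrFun e2 j)
    | succ m =>
      have h1 : (fun i => v (Sum.inl i)) ᵥ* (dB (m + 1)).map ψ +
          (fun i => v (Sum.inr i)) ᵥ* (φ (m + 1)).map ψ = 0 := by
        funext j
        exact (v1 (fun n => (dA n).map ψ) (fun n => (dB n).map ψ) (fun n => (φ n).map ψ)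
          m v j).symm.trans (congrFun hv (Sum.inl j))
      have h2 : (fun i => v (Sum.inr i)) ᵥ* (dA m).map ψ = 0 := by
        funext j
        exact neg_eq_zero.1 ((v2 (fun n => (dA n).map ψ) (fun n => (dB n).map ψ)
          (fun n => (φ n).map ψ) m v j).symm.trans (congrFun hv (Sum.inr j)))
      obtain ⟨x', y', e1, e2⟩ := chase ((dA (m + 1)).map ψ) ((dB (m + 1)).map ψ)
        ((dB (m + 2)).map ψ) ((φ (m + 1)).map ψ) ((φ (m + 2)).map ψ) (hφU (m + 1)) _ _
        (A5 m (by omega) _ h2) (fun x hx => B5 (m + 1) (by omega) x hx) h1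
      refine ⟨(Sum.elim x' y' : iB (m + 3) ⊕ iA (m + 2) → U), ?_⟩
      funext j
      rcases j with j | j
      · exact (v1 (fun n => (dA n).map ψ) (fun n => (dB n).map ψ) (fun n => (φ n).map ψ)
          _ _ j).trans (congrFun e1 j)
      · exact (v2 (fun n => (dA n).map ψ) (fun n => (dB n).map ψ) (fun n => (φ n).map ψ)
          _ _ j).trans (congrFun e2 j)

end Pool.Agent.U851.LBP
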